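import Mathlib
import Pool.Agent.Helper426.TW.Density

set_option autoImplicit false

namespace Pool.Agent.Results.MP_c2f093_al.AlmostAllPositive

open Filter Topology

open Classical in
/-- Almost all positive words are determined by their `SL(3, ℂ)`-traces: the proportion, among the
`2 ^ n` positive words `u` of length `n` in `a, b` (functions `Fin n → Fin 2`, `0 = a`, `1 = b`), of
those such that for every automorphism `φ` of `F(a,b)` and every `v ∈ F(a,b)` with
`tr φ(u)(A,B) = tr v(A,B)` for all `A, B ∈ SL(3, ℂ)` the elements `φ(u)` and `v` are conjugate,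
tends to `1` as `n → ∞`. -/
theorem result : Tendsto (fun n : ℕ =>
    (((Finset.univ : Finset (Fin n → Fin 2)).filter (fun u =>
      ∀ (φ : FreeGroup (Fin 2) ≃* FreeGroup (Fin 2)) (v : FreeGroup (Fin 2)),
        (∀ A B : Matrix.SpecialLinearGroup (Fin 3) ℂ,
          Matrix.trace ((FreeGroup.lift ![A, B] (φ ((List.ofFn u).map FreeGroup.of).prod) :
            Matrix.SpecialLinearGroup (Fin 3) ℂ) : Matrix (Fin 3) (Fin 3) ℂ) =
          Matrix.trace ((FreeGroup.lift ![A, B] v :
            Matrix.SpecialLinearGroup (Fin 3) ℂ) : Matrix (Fin 3) (Fin 3) ℂ)) →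
        IsConj (φ ((List.ofFn u).map FreeGroup.of).prod) v)).card : ℝ) / 2 ^ n)
    atTop (𝓝 1) := by
  have h := Pool.Agent.Helper426.TW.density_one
  refine h.congr fun n => ?_
  congr 2
  refine congrArg Finset.card (Finset.filter_congr fun u _ => ?_)
  constructor
  · intro hu φ v hv
    exact Pool.Agent.Helper426.TW.conj_of_determined hu φ v hv
  · intro hu v hv
    exact hu (MulEquiv.refl _) v hv

end Pool.Agent.Results.MP_c2f093_al.AlmostAllPositive
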