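import Mathlib
import Pool.Agent.Helper426.TW.Aut

set_option autoImplicit false

namespace Pool.Agent.Results.MP_c2f093_al.CoprimePositive

/-- Let `u` be a positive word in `a, b` (a list of letters `0 = a`, `1 = b`) whose numbers of
letters `a` and `b` are coprime, let `φ` be an automorphism of `F(a,b)`, and let `v ∈ F(a,b)` be
arbitrary.  If `φ(u)` and `v` have the same trace at all pairs of matrices of `SL(3, ℂ)`, then
`φ(u)` and `v` are conjugate. -/
theorem result (u : List (Fin 2)) (hu : Nat.Coprime (u.count 0) (u.count 1))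
    (φ : FreeGroup (Fin 2) ≃* FreeGroup (Fin 2)) (v : FreeGroup (Fin 2))
    (h : ∀ A B : Matrix.SpecialLinearGroup (Fin 3) ℂ,
      Matrix.trace ((FreeGroup.lift ![A, B] (φ (u.map FreeGroup.of).prod) :
        Matrix.SpecialLinearGroup (Fin 3) ℂ) : Matrix (Fin 3) (Fin 3) ℂ) =
      Matrix.trace ((FreeGroup.lift ![A, B] v :
        Matrix.SpecialLinearGroup (Fin 3) ℂ) : Matrix (Fin 3) (Fin 3) ℂ)) :
    IsConj (φ (u.map FreeGroup.of).prod) v :=
  Pool.Agent.Helper426.TW.conj_of_determined
    (Pool.Agent.Helper426.TW.determined_of_coprime hu) φ v h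

end Pool.Agent.Results.MP_c2f093_al.CoprimePositive
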