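import Mathlib
import Pool.Agent.Helper426.TW.Aut

set_option autoImplicit false

namespace Pool.Agent.Results.MP_c2f093_al.UniqueFactor

/-- Let `u = x f y g` be a positive word in `a, b` (`x, y` letters, `f, g` words; words are lists
of letters `0 = a`, `1 = b`) such that no other cyclic occurrence `x f' y` in `u` has `f'` an
anagram of `f`.  Then for every automorphism `φ` of `F(a,b)` and every `v ∈ F(a,b)`: if `φ(u)` and
`v` have the same trace at all pairs of matrices of `SL(3, ℂ)`, they are conjugate. -/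
theorem result (u f g : List (Fin 2)) (x y : Fin 2) (hu : u = x :: (f ++ y :: g))
    (huniq : ∀ (k : ℕ) (f' g' : List (Fin 2)), 0 < k → k < u.length →
      u.rotate k = x :: (f' ++ y :: g') → ¬ f'.Perm f)
    (φ : FreeGroup (Fin 2) ≃* FreeGroup (Fin 2)) (v : FreeGroup (Fin 2))
    (h : ∀ A B : Matrix.SpecialLinearGroup (Fin 3) ℂ,
      Matrix.trace ((FreeGroup.lift ![A, B] (φ (u.map FreeGroup.of).prod) :
        Matrix.SpecialLinearGroup (Fin 3) ℂ) : Matrix (Fin 3) (Fin 3) ℂ) =
      Matrix.trace ((FreeGroup.lift ![A, B] v :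
        Matrix.SpecialLinearGroup (Fin 3) ℂ) : Matrix (Fin 3) (Fin 3) ℂ)) :
    IsConj (φ (u.map FreeGroup.of).prod) v :=
  Pool.Agent.Helper426.TW.conj_of_determined
    (Pool.Agent.Helper426.TW.determined_of_unique_factor hu huniq) φ v h

end Pool.Agent.Results.MP_c2f093_al.UniqueFactor
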